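import Pool.Agent.Q120.FA.Stm3
import Pool.Agent.Q129.FA.AS
import Pool.Agent.Q277.FA.ID
import Pool.Agent.Q277.FA.L2
import Pool.Agent.Q65.FA.MI
import Pool.Agent.Q65.FA.TL

set_option autoImplicit false

/-!
# Project FA (helper120), job SM: the minor arcs for the sum over the Farey fractions
-/

namespace Pool.Agent.Q210.FA

open MeasureTheory Filter Topology Set
open Pool.Agent.Q120.FA
open Pool.Agent.Q129.FA (G_eq G_sq G_bd BB BB_nonneg FQ mem_FQ arc minor)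
open scoped ENNReal

theorem mem_FN {N : ℕ} {q : ℕ × ℕ} :
    q ∈ FN N ↔ (1 ≤ q.1 ∧ q.1 ≤ N) ∧ (1 ≤ q.2 ∧ q.2 ≤ N) ∧ q.1 ≤ q.2 ∧ q.1.Coprime q.2 := by
  unfold FN
  rw [Finset.mem_filter, Finset.mem_product, Finset.mem_Icc, Finset.mem_Icc]
  tauto

theorem FN_card_le (N : ℕ) : ((FN N).card : ℝ) ≤ (N : ℝ) ^ 2 := by
  have h : (FN N).card ≤ N ^ 2 := by
    unfold FN
    refine (Finset.card_filter_le _ _).trans ?_
    rw [Finset.card_product, Nat.card_Icc]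
    simp [pow_two]
  exact_mod_cast h

theorem fp_pos {N : ℕ} {q : ℕ × ℕ} (h : q ∈ FN N) : 0 < fp q := by
  rw [mem_FN] at h
  have h1 : (0 : ℝ) < q.1 := by exact_mod_cast h.1.1
  have h2 : (0 : ℝ) < q.2 := by exact_mod_cast h.2.1.1
  exact div_pos h1 h2

theorem fp_le_one {N : ℕ} {q : ℕ × ℕ} (h : q ∈ FN N) : fp q ≤ 1 := by
  rw [mem_FN] at h
  have h2 : (0 : ℝ) < q.2 := by exact_mod_cast h.2.1.1
  have h3 : (q.1 : ℝ) ≤ q.2 := by exact_mod_cast h.2.2.1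
  exact (div_le_one h2).2 h3

/-- `|a + b + c| ^ p ≤ 3 ^ p (|a| ^ p + |b| ^ p + |c| ^ p)` -/
theorem three_rpow {p : ℝ} (hp : 0 ≤ p) (a b c : ℝ) :
    |a + b + c| ^ p ≤ 3 ^ p * (|a| ^ p + |b| ^ p + |c| ^ p) := by
  have ha := Real.rpow_nonneg (abs_nonneg a) p
  have hb := Real.rpow_nonneg (abs_nonneg b) p
  have hc := Real.rpow_nonneg (abs_nonneg c) p
  have h3 : (0 : ℝ) ≤ 3 ^ p := by positivity
  have key : ∀ m : ℝ, 0 ≤ m → |a| ≤ m → |b| ≤ m → |c| ≤ m → |a + b + c| ^ p ≤ 3 ^ p * m ^ p := by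
    intro m hm h1 h2 h4
    rw [← Real.mul_rpow (by norm_num) hm]
    refine Real.rpow_le_rpow (abs_nonneg _) ?_ hp
    have := abs_add_le (a + b) c
    have := abs_add_le a b
    linarith
  rcases le_total |a| |b| with h1 | h1
  · rcases le_total |b| |c| with h2 | h2
    · refine (key |c| (abs_nonneg _) (h1.trans h2) h2 le_rfl).trans ?_
      gcongr
      linarith
    · refine (key |b| (abs_nonneg _) h1 le_rfl h2).trans ?_
      gcongr
      linarith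
  · rcases le_total |a| |c| with h2 | h2
    · refine (key |c| (abs_nonneg _) h2 (h1.trans h2) le_rfl).trans ?_
      gcongr
      linarith
    · refine (key |a| (abs_nonneg _) le_rfl h1 h2).trans ?_
      gcongr
      linarith

/-- The sum of `|R(r)| ^ p`, `R` the part with the small `d`. -/
theorem sum_R (sl : J_SL) {p : ℝ} (hp : 1 ≤ p) (M : ℕ → ℝ) {N : ℕ} (K : ℕ) (hN : 1 ≤ N) :
    ∑ r ∈ FN N, |∑ d ∈ Finset.Icc 1 (N / K), M (N / d) * ps ((d : ℝ) * fp r)| ^ p ≤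
      4 * 2 ^ p * (N : ℝ) ^ 2 *
        ∫ t in (0 : ℝ)..1, |∑ d ∈ Finset.Icc 1 (N / K), M (N / d) * ps ((d : ℝ) * t)| ^ p := by
  have h := sl p hp N hN (fun d => if d ≤ N / K then M (N / d) else 0) 0
  have e : ∀ t : ℝ, (∑ d ∈ Finset.Icc 1 N, (if d ≤ N / K then M (N / d) else 0) * ps ((d : ℝ) * t)) + 0 =
      ∑ d ∈ Finset.Icc 1 (N / K), M (N / d) * ps ((d : ℝ) * t) := by
    intro t
    rw [add_zero]
    simp only [ite_mul, zero_mul]
    rw [← Finset.sum_filter]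
    refine Finset.sum_congr ?_ fun _ _ => rfl
    ext d
    simp only [Finset.mem_Icc, Finset.mem_filter]
    have := Nat.div_le_self N K
    omega
  simp only [e] at h
  exact h

/-- The sum of `G(r) ^ 2`. -/
theorem sum_G (sl : J_SL) {A : ℝ} (hA : ∀ (N : ℕ) (c : ℕ → ℝ) (B : ℝ), 0 ≤ B →
    (∀ d ∈ Finset.Icc 1 N, |c d| ≤ B) →
    ∫ t in (0 : ℝ)..1, (∑ d ∈ Finset.Icc 1 N, c d * ps ((d : ℝ) * t)) ^ 2 ≤ A * B ^ 2 * N)
    (K : ℕ) (b : ℕ → ℝ) {N : ℕ} (hN : 1 ≤ N) :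
    ∑ r ∈ FN N, (G K b N (fp r)) ^ 2 ≤ 16 * A * BB K b ^ 2 * (N : ℝ) ^ 3 := by
  have h := sl 2 (by norm_num) N hN (fun d => ∑ m ∈ Finset.Icc 1 K, if d ≤ N / m then b m else 0) 0
  simp only [add_zero, ← G_eq] at h
  have e : ∀ x : ℝ, |x| ^ (2 : ℝ) = x ^ 2 := by
    intro x
    rw [Real.rpow_two, sq_abs]
  simp only [e] at h
  refine h.trans ?_
  have h2 := G_sq hA K b N
  have h3 : (4 : ℝ) * 2 ^ (2 : ℝ) * (N : ℝ) ^ 2 * (∫ t in (0 : ℝ)..1, (G K b N t) ^ 2) ≤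
      4 * 2 ^ (2 : ℝ) * (N : ℝ) ^ 2 * (A * BB K b ^ 2 * N) :=
    mul_le_mul_of_nonneg_left h2 (by positivity)
  refine h3.trans (le_of_eq ?_)
  rw [Real.rpow_two]
  ring

theorem mem_filter' {α : Type*} (s : Finset α) (P : α → Prop) (inst : DecidablePred P) (a : α) :
    a ∈ @Finset.filter α P inst s ↔ a ∈ s ∧ P a := Finset.mem_filter

open Classical in
/-- The Farey fractions which are not on the arcs. -/
noncomputable def off (Q : ℕ) (X : ℝ) (N : ℕ) : Finset (ℕ × ℕ) :=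
  (FN N).filter (fun r => ∀ q ∈ Finset.Icc 1 Q, ∀ a ∈ Finset.range (q + 1), a.Coprime q →
    X / (q * N) < |fp r - (a : ℝ) / q|)

theorem mem_off {Q : ℕ} {X : ℝ} {N : ℕ} {r : ℕ × ℕ} : r ∈ off Q X N ↔ r ∈ FN N ∧
    ∀ q ∈ Finset.Icc 1 Q, ∀ a ∈ Finset.range (q + 1), a.Coprime q →
      X / (q * N) < |fp r - (a : ℝ) / q| := by
  unfold off
  exact mem_filter' _ _ _ _

theorem off_anti {Q Q' : ℕ} {X X' : ℝ} (hQ : Q ≤ Q') (hX : X ≤ X') (N : ℕ) : off Q' X' N ⊆ off Q X N := by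
  intro r hr
  rw [mem_off] at hr ⊢
  refine ⟨hr.1, fun q hq a ha hc => lt_of_le_of_lt ?_ (hr.2 q ?_ a ha hc)⟩
  · exact div_le_div_of_nonneg_right hX (by positivity)
  · rw [Finset.mem_Icc] at hq ⊢
    exact ⟨hq.1, hq.2.trans hQ⟩

theorem off_minor {A : ℝ} (hA0 : 0 < A)
    (hA : ∀ (N D q : ℕ) (a : ℤ) (X t : ℝ), D ≤ N → 1 ≤ q → IsCoprime a (q : ℤ) → 1 ≤ X →
      (q : ℝ) * X ≤ N → |t - (a : ℝ) / q| ≤ X / (q * N) → |S D t| ≤ A * ((N : ℝ) / q + N / X))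
    {Q N : ℕ} {X : ℝ} (hQ : 1 ≤ Q) (hX : X = Q + 1) (hN : (Q + 1) * X ≤ N) {r : ℕ × ℕ}
    (hr : r ∈ off Q X N) (K : ℕ) (b : ℕ → ℝ) :
    |G K b N (fp r)| ≤ BB K b * (A * (2 * N / (Q + 1))) := by
  rw [mem_off] at hr
  have hQ0 : (0 : ℝ) ≤ Q := Nat.cast_nonneg Q
  have hX0 : 0 < X := by rw [hX]; linarith
  have hN0 : (0 : ℝ) < N := lt_of_lt_of_le (by positivity) hN
  refine G_bd fun m _ => ?_
  refine minor hA0 hA hX hN ?_ ?_ (Nat.div_le_self N m)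
  · refine ⟨?_, ?_⟩
    · have h1 := fp_pos hr.1
      have h2 : 0 < X / N := by positivity
      linarith
    · have h1 := hr.2 1 (Finset.mem_Icc.2 ⟨le_rfl, hQ⟩) 1 (Finset.mem_range.2 (by omega)) (Nat.coprime_one_left 1)
      have h2 := fp_le_one hr.1
      rw [Nat.cast_one, one_mul, div_one, abs_of_nonpos (by linarith)] at h1
      linarith
  · rintro ⟨q, a⟩ hi ht
    rw [mem_FQ] at hi
    simp only at hi
    unfold arc at ht
    simp only [Int.cast_natCast, mem_Icc] at ht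
    have h1 := hr.2 q (Finset.mem_Icc.2 hi.1) a (Finset.mem_range.2 (by omega)) hi.2.2.symm
    have h2 : |fp r - (a : ℝ) / q| ≤ X / (q * N) := by
      rw [abs_le]
      have := ht.1
      have := ht.2
      rw [neg_div] at *
      constructor <;> linarith
    linarith

/-- `J_SM` from the jobs. -/
theorem t_SM_of (hid : J_ID) (l2 : J_L2) (tl : J_TL) (mi : J_MI) (sl : J_SL) : J_SM := by
  intro p c0 θ hp hθ0 hθ hM ε hε
  have hp0 : 0 < p := by linarith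
  obtain ⟨A2, hA20, hA2⟩ := l2
  obtain ⟨A, hA0, hA⟩ := mi
  have hM' : ∀ k : ℕ, 1 ≤ k → |Mt k| ≤ max c0 1 * (k : ℝ) ^ θ := fun k hk =>
    (hM k hk).trans (mul_le_mul_of_nonneg_right (le_max_left _ _) (by positivity))
  obtain ⟨A3, η, hA30, hη, hTL⟩ := tl p θ (max c0 1) hp hθ0 hθ (lt_of_lt_of_le one_pos (le_max_right _ _))
  -- the choice of `K`
  obtain ⟨K, hK1, hK⟩ : ∃ K : ℕ, 1 ≤ K ∧
      3 ^ p * (4 * 2 ^ p * A3) * (K : ℝ) ^ (-η) ≤ ε / 3 := by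
    have h1 : Tendsto (fun K : ℕ => 3 ^ p * (4 * 2 ^ p * A3) * (K : ℝ) ^ (-η)) atTop (𝓝 0) := by
      have := ((tendsto_rpow_neg_atTop hη).comp tendsto_natCast_atTop_atTop).const_mul (3 ^ p * (4 * 2 ^ p * A3))
      rw [mul_zero] at this
      exact this
    obtain ⟨K, hK⟩ := ((h1.eventually_lt_const (show (0 : ℝ) < ε / 3 by linarith)).and
      (eventually_ge_atTop 1)).exists
    exact ⟨K, hK.2, hK.1.le⟩
  set B := BB K (bK K) with hB
  have hB0 : 0 ≤ B := BB_nonneg _ _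
  -- the choice of `Q`
  obtain ⟨Q, hQ1, hQ⟩ : ∃ Q : ℕ, 1 ≤ Q ∧
      3 ^ p * ((B * (A * 2)) ^ (p - 2) * (16 * A2 * B ^ 2)) * ((Q : ℝ) + 1) ^ (-(p - 2)) ≤ ε / 3 := by
    have h0 : Tendsto (fun Q : ℕ => (Q : ℝ) + 1) atTop atTop :=
      tendsto_natCast_atTop_atTop.atTop_add tendsto_const_nhds
    have h1 : Tendsto (fun Q : ℕ => 3 ^ p * ((B * (A * 2)) ^ (p - 2) * (16 * A2 * B ^ 2)) *
        ((Q : ℝ) + 1) ^ (-(p - 2))) atTop (𝓝 0) := by
      have := ((tendsto_rpow_neg_atTop (show 0 < p - 2 by linarith)).comp h0).const_mul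
        (3 ^ p * ((B * (A * 2)) ^ (p - 2) * (16 * A2 * B ^ 2)))
      rw [mul_zero] at this
      exact this
    obtain ⟨Q, hQ⟩ := ((h1.eventually_lt_const (show (0 : ℝ) < ε / 3 by linarith)).and
      (eventually_ge_atTop 1)).exists
    exact ⟨Q, hQ.2, hQ.1.le⟩
  refine ⟨Q, (Q : ℝ) + 1, hQ1, by linarith [(Nat.cast_nonneg Q : (0 : ℝ) ≤ Q)], ?_⟩
  intro Q' X' hQQ hXX
  -- large `N`
  have hlast : Tendsto (fun N : ℕ => 3 ^ p * (N : ℝ) ^ (-(p - 1))) atTop (𝓝 0) := by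
    have := ((tendsto_rpow_neg_atTop (show 0 < p - 1 by linarith)).comp
      tendsto_natCast_atTop_atTop).const_mul ((3 : ℝ) ^ p)
    rw [mul_zero] at this
    exact this
  filter_upwards [hlast.eventually_lt_const (show (0 : ℝ) < ε / 3 by linarith), eventually_ge_atTop 1,
    (tendsto_natCast_atTop_atTop (R := ℝ)).eventually_ge_atTop (((Q : ℝ) + 1) * ((Q : ℝ) + 1))]
    with N hN3 hN1 hNQ
  have hN0 : (0 : ℝ) < N := by exact_mod_cast hN1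
  set R : ℝ → ℝ := fun t => ∑ d ∈ Finset.Icc 1 (N / K), Mt (N / d) * ps ((d : ℝ) * t) with hR
  -- the pointwise bound
  have hpt : ∀ r ∈ FN N, |E N (fp r)| ^ p ≤
      3 ^ p * (|G K (bK K) N (fp r)| ^ p + |R (fp r)| ^ p + 1) := by
    intro r hr
    have h1 := hid N K hN1 hK1 (fp r) (fp_pos hr).le (fp_le_one hr)
    have h2 : E N (fp r) = G K (bK K) N (fp r) + (-R (fp r)) + (-(1 / 2)) := by
      rw [h1]; ring
    rw [h2]
    refine (three_rpow hp0.le _ _ _).trans ?_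
    rw [abs_neg, abs_neg]
    have h3 : |(1 / 2 : ℝ)| ^ p ≤ 1 := by
      refine Real.rpow_le_one (abs_nonneg _) ?_ hp0.le
      norm_num [abs_of_pos]
    gcongr
  have hE0 : ∀ r, 0 ≤ |E N (fp r)| ^ p := fun r => Real.rpow_nonneg (abs_nonneg _) p
  -- the three parts
  have hsumR : ∑ r ∈ FN N, |R (fp r)| ^ p ≤ 4 * 2 ^ p * A3 * (K : ℝ) ^ (-η) * (N : ℝ) ^ (p + 1) := by
    refine (sum_R sl (by linarith) Mt K hN1).trans ?_
    have h1 := hTL Mt hM' N K hN1 hK1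
    have h2 : 4 * 2 ^ p * (N : ℝ) ^ 2 * (∫ t in (0 : ℝ)..1, |∑ d ∈ Finset.Icc 1 (N / K),
        Mt (N / d) * ps ((d : ℝ) * t)| ^ p) ≤
        4 * 2 ^ p * (N : ℝ) ^ 2 * (A3 * (K : ℝ) ^ (-η) * (N : ℝ) ^ (p - 1)) :=
      mul_le_mul_of_nonneg_left h1 (by positivity)
    refine h2.trans (le_of_eq ?_)
    have h3 : (N : ℝ) ^ (p + 1) = (N : ℝ) ^ 2 * (N : ℝ) ^ (p - 1) := by
      rw [← Real.rpow_natCast (N : ℝ) 2, ← Real.rpow_add hN0]
      congr 1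
      push_cast
      ring
    rw [h3]
    ring
  have hsumG : ∑ r ∈ off Q ((Q : ℝ) + 1) N, |G K (bK K) N (fp r)| ^ p ≤
      ((B * (A * 2)) ^ (p - 2) * (16 * A2 * B ^ 2)) * ((Q : ℝ) + 1) ^ (-(p - 2)) * (N : ℝ) ^ (p + 1) := by
    have hQ0 : (0 : ℝ) < (Q : ℝ) + 1 := by positivity
    have h1 : ∀ r ∈ off Q ((Q : ℝ) + 1) N, |G K (bK K) N (fp r)| ^ p ≤
        (B * (A * 2) * (((Q : ℝ) + 1)⁻¹ * N)) ^ (p - 2) * (G K (bK K) N (fp r)) ^ 2 := by
      intro r hr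
      have h2 := off_minor hA0 hA hQ1 rfl hNQ hr K (bK K)
      have h3 : B * (A * (2 * N / (Q + 1))) = B * (A * 2) * (((Q : ℝ) + 1)⁻¹ * N) := by
        rw [div_eq_mul_inv]; ring
      rw [← hB, h3] at h2
      rcases eq_or_ne (G K (bK K) N (fp r)) 0 with h0 | h0
      · rw [h0, abs_zero, Real.zero_rpow hp0.ne']
        positivity
      · have h4 : |G K (bK K) N (fp r)| ^ p =
            |G K (bK K) N (fp r)| ^ (p - 2) * (G K (bK K) N (fp r)) ^ 2 := by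
          rw [← sq_abs, ← Real.rpow_natCast (|G K (bK K) N (fp r)|) 2,
            ← Real.rpow_add (abs_pos.2 h0)]
          congr 1
          push_cast
          ring
        rw [h4]
        exact mul_le_mul_of_nonneg_right (Real.rpow_le_rpow (abs_nonneg _) h2 (by linarith)) (sq_nonneg _)
    refine (Finset.sum_le_sum h1).trans ?_
    rw [← Finset.mul_sum]
    have h5 : ∑ r ∈ off Q ((Q : ℝ) + 1) N, (G K (bK K) N (fp r)) ^ 2 ≤ 16 * A2 * B ^ 2 * (N : ℝ) ^ 3 := by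
      refine (Finset.sum_le_sum_of_subset_of_nonneg ?_ fun _ _ _ => sq_nonneg _).trans
        (sum_G sl hA2 K (bK K) hN1)
      intro r hr
      exact (mem_off.1 hr).1
    refine (mul_le_mul_of_nonneg_left h5 (by positivity)).trans (le_of_eq ?_)
    rw [Real.mul_rpow (by positivity) (by positivity), Real.mul_rpow (by positivity) hN0.le,
      Real.inv_rpow hQ0.le, Real.rpow_neg hQ0.le]
    have h3 : (N : ℝ) ^ (p + 1) = (N : ℝ) ^ (p - 2) * (N : ℝ) ^ 3 := by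
      rw [← Real.rpow_natCast (N : ℝ) 3, ← Real.rpow_add hN0]
      congr 1
      push_cast
      ring
    rw [h3]
    ring
  have hsum1 : ∑ _r ∈ off Q ((Q : ℝ) + 1) N, (1 : ℝ) ≤ (N : ℝ) ^ (-(p - 1)) * (N : ℝ) ^ (p + 1) := by
    rw [← Real.rpow_add hN0]
    have h2 : (N : ℝ) ^ (-(p - 1) + (p + 1)) = (N : ℝ) ^ 2 := by
      rw [← Real.rpow_natCast (N : ℝ) 2]
      congr 1
      push_cast
      ring
    rw [h2, Finset.sum_const, nsmul_eq_mul, mul_one]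
    refine le_trans ?_ (FN_card_le N)
    exact_mod_cast Finset.card_le_card fun r hr => (mem_off.1 hr).1
  -- the conclusion
  have hNp : (0 : ℝ) < (N : ℝ) ^ (p + 1) := by positivity
  rw [div_le_iff₀ hNp]
  have hfin : ∑ r ∈ off Q' X' N, |E N (fp r)| ^ p ≤ ε * (N : ℝ) ^ (p + 1) := by
    calc ∑ r ∈ off Q' X' N, |E N (fp r)| ^ p
        ≤ ∑ r ∈ off Q ((Q : ℝ) + 1) N, |E N (fp r)| ^ p :=
          Finset.sum_le_sum_of_subset_of_nonneg (off_anti hQQ hXX N) fun r _ _ => hE0 r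
      _ ≤ ∑ r ∈ off Q ((Q : ℝ) + 1) N, 3 ^ p * (|G K (bK K) N (fp r)| ^ p + |R (fp r)| ^ p + 1) :=
          Finset.sum_le_sum fun r hr => hpt r (mem_off.1 hr).1
      _ = 3 ^ p * (∑ r ∈ off Q ((Q : ℝ) + 1) N, |G K (bK K) N (fp r)| ^ p +
            ∑ r ∈ off Q ((Q : ℝ) + 1) N, |R (fp r)| ^ p + ∑ _r ∈ off Q ((Q : ℝ) + 1) N, (1 : ℝ)) := by
          rw [← Finset.mul_sum, Finset.sum_add_distrib, Finset.sum_add_distrib]
      _ ≤ 3 ^ p * (((B * (A * 2)) ^ (p - 2) * (16 * A2 * B ^ 2)) * ((Q : ℝ) + 1) ^ (-(p - 2)) *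
            (N : ℝ) ^ (p + 1) + 4 * 2 ^ p * A3 * (K : ℝ) ^ (-η) * (N : ℝ) ^ (p + 1) +
            (N : ℝ) ^ (-(p - 1)) * (N : ℝ) ^ (p + 1)) := by
          refine mul_le_mul_of_nonneg_left (add_le_add (add_le_add hsumG ?_) hsum1) (by positivity)
          refine (Finset.sum_le_sum_of_subset_of_nonneg (fun r hr => (mem_off.1 hr).1) fun r _ _ => ?_).trans hsumR
          exact Real.rpow_nonneg (abs_nonneg _) p
      _ = (3 ^ p * ((B * (A * 2)) ^ (p - 2) * (16 * A2 * B ^ 2)) * ((Q : ℝ) + 1) ^ (-(p - 2)) +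
            3 ^ p * (4 * 2 ^ p * A3) * (K : ℝ) ^ (-η) + 3 ^ p * (N : ℝ) ^ (-(p - 1))) *
            (N : ℝ) ^ (p + 1) := by ring
      _ ≤ ε * (N : ℝ) ^ (p + 1) := by
          refine mul_le_mul_of_nonneg_right ?_ hNp.le
          linarith
  exact hfin

/-- **Job SM.** -/
theorem t_SM (sl : J_SL) : J_SM :=
  t_SM_of Pool.Agent.Q277.FA.t_ID Pool.Agent.Q277.FA.t_L2 Pool.Agent.Q65.FA.t_TL Pool.Agent.Q65.FA.t_MI sl

end Pool.Agent.Q210.FA
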