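import Pool.Agent.Q210.FA.SM

set_option autoImplicit false

/-!
# Project FA (helper120), job SS: the limit theorem for the sums over the Farey fractions
-/

namespace Pool.Agent.Q210.FA

open MeasureTheory Filter Topology Set
open Pool.Agent.Q120.FA
open scoped ENNReal

/-! ## The functions `F` and `w` -/

theorem measurable_F : Measurable F := by
  have h : Measurable (fun q : ℕ × ℝ => ∑ n ∈ Finset.Icc 1 q.1, (n.totient : ℝ) / (n : ℝ) * (1 - (n : ℝ) / q.2)) := by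
    refine measurable_from_prod_countable_right fun k => ?_
    show Measurable fun x : ℝ => ∑ n ∈ Finset.Icc 1 k, (n.totient : ℝ) / (n : ℝ) * (1 - (n : ℝ) / x)
    fun_prop
  unfold F
  refine Measurable.sub ?_ (by fun_prop)
  exact h.comp (Nat.measurable_floor.prodMk measurable_id)

theorem measurable_w : Measurable w := by
  unfold w
  refine Measurable.div ?_ (by fun_prop)
  exact (measurable_from_nat (f := fun m : ℕ => ∑ n ∈ Finset.Icc 1 m, (n.totient : ℝ))).comp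
    Nat.measurable_floor

theorem F_bound {x : ℝ} (hx : 0 < x) : |F x| ≤ 2 * x := by
  have h1 : |∑ n ∈ Finset.Icc 1 ⌊x⌋₊, (n.totient : ℝ) / (n : ℝ) * (1 - (n : ℝ) / x)| ≤ x := by
    refine (Finset.abs_sum_le_sum_abs _ _).trans ?_
    have h2 : ∀ n ∈ Finset.Icc 1 ⌊x⌋₊, |(n.totient : ℝ) / (n : ℝ) * (1 - (n : ℝ) / x)| ≤ 1 := by
      intro n hn
      rw [Finset.mem_Icc] at hn
      have hn0 : (0 : ℝ) < n := by exact_mod_cast hn.1
      have hnx : (n : ℝ) ≤ x := (Nat.le_floor_iff hx.le).1 hn.2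
      have h3 : 0 ≤ (n.totient : ℝ) / (n : ℝ) := by positivity
      have h4 : (n.totient : ℝ) / (n : ℝ) ≤ 1 := by
        rw [div_le_one hn0]
        exact_mod_cast n.totient_le
      have h5 : 0 ≤ 1 - (n : ℝ) / x := by
        rw [sub_nonneg, div_le_one hx]; exact hnx
      have h6 : 1 - (n : ℝ) / x ≤ 1 := by
        have : 0 ≤ (n : ℝ) / x := by positivity
        linarith
      rw [abs_of_nonneg (mul_nonneg h3 h5)]
      exact mul_le_one₀ h4 h5 h6
    refine (Finset.sum_le_sum h2).trans ?_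
    rw [Finset.sum_const, Nat.card_Icc, Nat.add_sub_cancel, nsmul_eq_mul, mul_one]
    exact Nat.floor_le hx.le
  unfold F
  have h2 : |3 / Real.pi ^ 2 * x| ≤ x := by
    rw [abs_of_nonneg (by positivity)]
    have h3 : 3 / Real.pi ^ 2 ≤ 1 := by
      rw [div_le_one (by positivity)]
      nlinarith [Real.pi_gt_three]
    nlinarith
  calc _ ≤ |∑ n ∈ Finset.Icc 1 ⌊x⌋₊, (n.totient : ℝ) / (n : ℝ) * (1 - (n : ℝ) / x)| +
        |3 / Real.pi ^ 2 * x| := abs_sub _ _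
    _ ≤ 2 * x := by linarith

theorem w_nonneg (x : ℝ) : 0 ≤ w x := by
  unfold w
  exact div_nonneg (Finset.sum_nonneg fun n _ => Nat.cast_nonneg _) (sq_nonneg x)

theorem w_le {x : ℝ} (hx : 0 < x) : w x ≤ 1 := by
  unfold w
  rw [div_le_one (by positivity)]
  calc ∑ n ∈ Finset.Icc 1 ⌊x⌋₊, (n.totient : ℝ) ≤ ∑ _n ∈ Finset.Icc 1 ⌊x⌋₊, x := by
        refine Finset.sum_le_sum fun n hn => ?_
        have h1 : (n : ℝ) ≤ x := (Nat.le_floor_iff hx.le).1 (Finset.mem_Icc.1 hn).2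
        have h2 : (n.totient : ℝ) ≤ n := by exact_mod_cast n.totient_le
        linarith
    _ = ⌊x⌋₊ * x := by rw [Finset.sum_const, Nat.card_Icc, Nat.add_sub_cancel, nsmul_eq_mul]
    _ ≤ x ^ 2 := by
        rw [sq]
        exact mul_le_mul_of_nonneg_right (Nat.floor_le hx.le) hx.le

/-- the integrand -/
noncomputable def fw (p : ℝ) (x : ℝ) : ℝ := |F x| ^ p * w x

theorem fw_nonneg (p x : ℝ) : 0 ≤ fw p x := mul_nonneg (Real.rpow_nonneg (abs_nonneg _) p) (w_nonneg x)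

theorem fw_meas (p : ℝ) : Measurable (fw p) := (measurable_F.abs.pow_const p).mul measurable_w

theorem fw_intOn {p : ℝ} (hp : 0 ≤ p) (X : ℝ) : IntegrableOn (fw p) (Ioc 0 X) := by
  refine Measure.integrableOn_of_bounded (M := (2 * X) ^ p) (by simp) (fw_meas p).aestronglyMeasurable ?_
  refine (ae_restrict_iff' measurableSet_Ioc).2 (Eventually.of_forall fun x hx => ?_)
  rw [Real.norm_eq_abs, abs_of_nonneg (fw_nonneg p x)]
  unfold fw
  have h1 : |F x| ^ p ≤ (2 * X) ^ p :=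
    Real.rpow_le_rpow (abs_nonneg _) ((F_bound hx.1).trans (by linarith [hx.2])) hp
  have h2 : 0 ≤ |F x| ^ p := Real.rpow_nonneg (abs_nonneg _) p
  calc |F x| ^ p * w x ≤ |F x| ^ p * 1 := mul_le_mul_of_nonneg_left (w_le hx.1) h2
    _ ≤ (2 * X) ^ p := by rw [mul_one]; exact h1

/-! ## Farey fractions -/

theorem fp_inj {N : ℕ} {r s : ℕ × ℕ} (hr : r ∈ FN N) (hs : s ∈ FN N) (h : fp r = fp s) : r = s := by
  obtain ⟨a, n⟩ := r
  obtain ⟨b, m⟩ := s
  rw [mem_FN] at hr hs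
  obtain ⟨⟨ha1, -⟩, ⟨hn1, -⟩, -, hc⟩ := hr
  obtain ⟨⟨hb1, -⟩, ⟨hm1, -⟩, -, hc'⟩ := hs
  simp only at ha1 hn1 hc hb1 hm1 hc'
  unfold fp at h
  simp only at h
  have hn0 : (0 : ℝ) < n := by exact_mod_cast hn1
  have hm0 : (0 : ℝ) < m := by exact_mod_cast hm1
  rw [div_eq_div_iff hn0.ne' hm0.ne'] at h
  have h1 : a * m = b * n := by exact_mod_cast h
  have h2 : n ∣ m := hc.symm.dvd_of_dvd_mul_left ⟨b, by rw [h1]; ring⟩
  have h3 : m ∣ n := hc'.symm.dvd_of_dvd_mul_left ⟨a, by rw [← h1]; ring⟩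
  have h4 : n = m := Nat.dvd_antisymm h2 h3
  subst h4
  have h5 : a = b := Nat.eq_of_mul_eq_mul_right (by omega) h1
  rw [h5]

/-- The centre of an arc which is near a given point is unique. -/
theorem uniq {Q N : ℕ} {X t : ℝ} (hX : 0 < X) (hN : 2 * Q * X < N) {q a r c : ℕ}
    (hq1 : 1 ≤ q) (hqQ : q ≤ Q) (hco : q.Coprime a) (hr1 : 1 ≤ r) (hrQ : r ≤ Q) (hco' : r.Coprime c)
    (h1 : |t - (a : ℝ) / q| ≤ X / (q * N)) (h2 : |t - (c : ℝ) / r| ≤ X / (r * N)) : q = r ∧ a = c := by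
  have hq0 : (0 : ℝ) < q := by exact_mod_cast hq1
  have hr0 : (0 : ℝ) < r := by exact_mod_cast hr1
  have hqQ' : (q : ℝ) ≤ Q := by exact_mod_cast hqQ
  have hrQ' : (r : ℝ) ≤ Q := by exact_mod_cast hrQ
  have hN0 : (0 : ℝ) < N := lt_of_le_of_lt (by positivity) hN
  have e1 : X / ((q : ℝ) * N) * (q * r) = X * r / N := by field_simp
  have e2 : X / ((r : ℝ) * N) * (q * r) = X * q / N := by field_simp
  have e3 : (a : ℝ) / q * (q * r) = a * r := by field_simp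
  have e4 : (c : ℝ) / r * (q * r) = c * q := by field_simp
  have e5 : X * r / N + X * q / N < 1 := by
    rw [← add_div, div_lt_one hN0]
    have h1 : X * r ≤ X * Q := mul_le_mul_of_nonneg_left hrQ' (by linarith)
    have h2 : X * q ≤ X * Q := mul_le_mul_of_nonneg_left hqQ' (by linarith)
    nlinarith
  have hqr : (0 : ℝ) < q * r := mul_pos hq0 hr0
  rw [abs_le] at h1 h2
  have h3 : (a : ℝ) * r < c * q + 1 := by
    have h3 : (a : ℝ) / q ≤ c / r + X / (r * N) + X / (q * N) := by linarith [h1.1, h2.2]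
    have h4 := mul_le_mul_of_nonneg_right h3 hqr.le
    rw [add_mul, add_mul, e1, e2, e3, e4] at h4
    linarith
  have h4 : (c : ℝ) * q < a * r + 1 := by
    have h3 : (c : ℝ) / r ≤ a / q + X / (r * N) + X / (q * N) := by linarith [h1.2, h2.1]
    have h4 := mul_le_mul_of_nonneg_right h3 hqr.le
    rw [add_mul, add_mul, e1, e2, e3, e4] at h4
    linarith
  have h3' : a * r < c * q + 1 := by exact_mod_cast h3
  have h4' : c * q < a * r + 1 := by exact_mod_cast h4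
  have h5 : a * r = c * q := by omega
  have h6 : q ∣ r := hco.dvd_of_dvd_mul_left ⟨c, by rw [h5]; ring⟩
  have h7 : r ∣ q := hco'.dvd_of_dvd_mul_left ⟨a, by rw [← h5]; ring⟩
  have h8 : q = r := Nat.dvd_antisymm h6 h7
  subst h8
  exact ⟨rfl, Nat.eq_of_mul_eq_mul_right (by omega) h5⟩

/-! ## The pieces -/

/-- the indices of the right parts -/
def PR (Q : ℕ) : Finset (Σ _ : ℕ, ℕ) :=
  (Finset.Icc 1 Q).sigma fun q => (Finset.range q).filter q.Coprime

/-- the indices of the left parts -/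
def PL (Q : ℕ) : Finset (Σ _ : ℕ, ℕ) :=
  (Finset.Icc 1 Q).sigma fun q => (Finset.Ico 1 (1 + q)).filter q.Coprime

theorem mem_PR {Q : ℕ} {i : Σ _ : ℕ, ℕ} : i ∈ PR Q ↔ (1 ≤ i.1 ∧ i.1 ≤ Q) ∧ i.2 < i.1 ∧ i.1.Coprime i.2 := by
  unfold PR
  simp only [Finset.mem_sigma, Finset.mem_Icc, Finset.mem_filter, Finset.mem_range]

theorem mem_PL {Q : ℕ} {i : Σ _ : ℕ, ℕ} :
    i ∈ PL Q ↔ (1 ≤ i.1 ∧ i.1 ≤ Q) ∧ (1 ≤ i.2 ∧ i.2 ≤ i.1) ∧ i.1.Coprime i.2 := by
  unfold PL
  simp only [Finset.mem_sigma, Finset.mem_Icc, Finset.mem_filter, Finset.mem_Ico]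
  constructor
  · rintro ⟨h1, ⟨h2, h3⟩, h4⟩
    exact ⟨h1, ⟨h2, by omega⟩, h4⟩
  · rintro ⟨h1, ⟨h2, h3⟩, h4⟩
    exact ⟨h1, ⟨h2, by omega⟩, h4⟩

theorem sum_PR (Q : ℕ) (f : ℕ → ℝ) : ∑ i ∈ PR Q, f i.1 = ∑ q ∈ Finset.Icc 1 Q, (q.totient : ℝ) * f q := by
  unfold PR
  rw [Finset.sum_sigma]
  refine Finset.sum_congr rfl fun q _ => ?_
  have e : ∀ s ∈ (Finset.range q).filter q.Coprime, f (⟨q, s⟩ : Σ _ : ℕ, ℕ).1 = f q := fun _ _ => rfl
  rw [Finset.sum_congr rfl e, Finset.sum_const, nsmul_eq_mul, ← Nat.totient_eq_card_coprime]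

theorem sum_PL (Q : ℕ) (f : ℕ → ℝ) : ∑ i ∈ PL Q, f i.1 = ∑ q ∈ Finset.Icc 1 Q, (q.totient : ℝ) * f q := by
  unfold PL
  rw [Finset.sum_sigma]
  refine Finset.sum_congr rfl fun q _ => ?_
  have e : ∀ s ∈ (Finset.Ico 1 (1 + q)).filter q.Coprime, f (⟨q, s⟩ : Σ _ : ℕ, ℕ).1 = f q := fun _ _ => rfl
  rw [Finset.sum_congr rfl e, Finset.sum_const, nsmul_eq_mul, Nat.filter_coprime_Ico_eq_totient]

/-- `r` is on the right part of the arc -/
def rt (X : ℝ) (N : ℕ) (i : Σ _ : ℕ, ℕ) (r : ℕ × ℕ) : Prop :=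
  (i.2 : ℝ) / i.1 < fp r ∧ fp r ≤ (i.2 : ℝ) / i.1 + X / (i.1 * N)

/-- `r` is on the left part of the arc -/
def lf (X : ℝ) (N : ℕ) (i : Σ _ : ℕ, ℕ) (r : ℕ × ℕ) : Prop :=
  (i.2 : ℝ) / i.1 - X / (i.1 * N) ≤ fp r ∧ fp r < (i.2 : ℝ) / i.1

theorem rt_abs {X : ℝ} {N : ℕ} {i : Σ _ : ℕ, ℕ} {r : ℕ × ℕ} (h : rt X N i r) :
    |fp r - (i.2 : ℝ) / i.1| ≤ X / (i.1 * N) := by
  rw [abs_of_nonneg (by linarith [h.1])]
  linarith [h.2]

theorem lf_abs {X : ℝ} {N : ℕ} {i : Σ _ : ℕ, ℕ} {r : ℕ × ℕ} (h : lf X N i r) :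
    |fp r - (i.2 : ℝ) / i.1| ≤ X / (i.1 * N) := by
  rw [abs_of_nonpos (by linarith [h.2])]
  linarith [h.1]

/-- the terms -/
noncomputable def vv (p : ℝ) (N : ℕ) (r : ℕ × ℕ) : ℝ := |E N (fp r)| ^ p

theorem vv_nonneg (p : ℝ) (N : ℕ) (r : ℕ × ℕ) : 0 ≤ vv p N r := Real.rpow_nonneg (abs_nonneg _) p

open Classical in
/-- the sum over the right and the left parts -/
noncomputable def TN (p : ℝ) (Q : ℕ) (X : ℝ) (N : ℕ) : ℝ :=
  ∑ i ∈ PR Q, (∑ r ∈ FN N, if rt X N i r then vv p N r else 0) +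
    ∑ i ∈ PL Q, ∑ r ∈ FN N, if lf X N i r then vv p N r else 0

open Classical in
theorem TN_eq (p : ℝ) (Q : ℕ) (X : ℝ) (N : ℕ) : TN p Q X N =
    ∑ r ∈ FN N, ((((PR Q).filter fun i => rt X N i r).card : ℝ) +
      ((PL Q).filter fun i => lf X N i r).card) * vv p N r := by
  unfold TN
  rw [Finset.sum_comm, Finset.sum_comm (s := PL Q), ← Finset.sum_add_distrib]
  refine Finset.sum_congr rfl fun r _ => ?_
  rw [← Finset.sum_filter, ← Finset.sum_filter, Finset.sum_const, Finset.sum_const, nsmul_eq_mul,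
    nsmul_eq_mul, add_mul]

open Classical in
theorem TN_le {p : ℝ} {Q N : ℕ} {X : ℝ} (hX : 0 < X) (hN : 2 * Q * X < N) : TN p Q X N ≤ W p N := by
  rw [TN_eq]
  unfold W
  refine Finset.sum_le_sum fun r _ => ?_
  have h0 := vv_nonneg p N r
  have h1 : (((PR Q).filter fun i => rt X N i r).card + ((PL Q).filter fun i => lf X N i r).card : ℕ) ≤ 1 := by
    have hR : ((PR Q).filter fun i => rt X N i r).card ≤ 1 := by
      rw [Finset.card_le_one]
      intro i hi j hj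
      rw [Finset.mem_filter, mem_PR] at hi hj
      obtain ⟨h2, h3⟩ := uniq hX hN hi.1.1.1 hi.1.1.2 hi.1.2.2 hj.1.1.1 hj.1.1.2 hj.1.2.2
        (rt_abs hi.2) (rt_abs hj.2)
      exact Sigma.ext h2 (heq_of_eq h3)
    have hL : ((PL Q).filter fun i => lf X N i r).card ≤ 1 := by
      rw [Finset.card_le_one]
      intro i hi j hj
      rw [Finset.mem_filter, mem_PL] at hi hj
      obtain ⟨h2, h3⟩ := uniq hX hN hi.1.1.1 hi.1.1.2 hi.1.2.2 hj.1.1.1 hj.1.1.2 hj.1.2.2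
        (lf_abs hi.2) (lf_abs hj.2)
      exact Sigma.ext h2 (heq_of_eq h3)
    rcases Finset.eq_empty_or_nonempty ((PR Q).filter fun i => rt X N i r) with h | ⟨i, hi⟩
    · rw [h, Finset.card_empty, zero_add]
      exact hL
    · rcases Finset.eq_empty_or_nonempty ((PL Q).filter fun i => lf X N i r) with h | ⟨j, hj⟩
      · rw [h, Finset.card_empty, add_zero]
        exact hR
      · exfalso
        rw [Finset.mem_filter, mem_PR] at hi
        rw [Finset.mem_filter, mem_PL] at hj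
        obtain ⟨h2, h3⟩ := uniq hX hN hi.1.1.1 hi.1.1.2 hi.1.2.2 hj.1.1.1 hj.1.1.2 hj.1.2.2
          (rt_abs hi.2) (lf_abs hj.2)
        have h4 := hi.2.1
        have h5 := hj.2.2
        rw [h2, h3] at h4
        linarith
  have h2 : ((((PR Q).filter fun i => rt X N i r).card : ℝ) +
      ((PL Q).filter fun i => lf X N i r).card) ≤ 1 := by exact_mod_cast h1
  calc _ ≤ 1 * vv p N r := mul_le_mul_of_nonneg_right h2 h0
    _ = _ := by rw [one_mul]; rfl

open Classical in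
theorem le_TN {p : ℝ} {Q N : ℕ} {X : ℝ} : W p N ≤ TN p Q X N +
    (∑ i ∈ PL Q, |E N ((i.2 : ℝ) / i.1)| ^ p) + ∑ r ∈ off Q X N, |E N (fp r)| ^ p := by
  have hcen : (∑ r ∈ FN N, (((PL Q).filter fun i => fp r = (i.2 : ℝ) / i.1).card : ℝ) * vv p N r) ≤
      ∑ i ∈ PL Q, |E N ((i.2 : ℝ) / i.1)| ^ p := by
    have h1 : (∑ r ∈ FN N, (((PL Q).filter fun i => fp r = (i.2 : ℝ) / i.1).card : ℝ) * vv p N r) =
        ∑ i ∈ PL Q, ∑ r ∈ FN N, if fp r = (i.2 : ℝ) / i.1 then vv p N r else 0 := by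
      rw [Finset.sum_comm]
      refine Finset.sum_congr rfl fun r _ => ?_
      rw [← Finset.sum_filter, Finset.sum_const, nsmul_eq_mul]
    rw [h1]
    refine Finset.sum_le_sum fun i _ => ?_
    rw [← Finset.sum_filter]
    have h2 : ((FN N).filter fun r => fp r = (i.2 : ℝ) / i.1).card ≤ 1 := by
      rw [Finset.card_le_one]
      intro r hr s hs
      rw [Finset.mem_filter] at hr hs
      exact fp_inj hr.1 hs.1 (hr.2.trans hs.2.symm)
    have h3 : ∑ r ∈ (FN N).filter (fun r => fp r = (i.2 : ℝ) / i.1), vv p N r =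
        ∑ r ∈ (FN N).filter (fun r => fp r = (i.2 : ℝ) / i.1), |E N ((i.2 : ℝ) / i.1)| ^ p := by
      refine Finset.sum_congr rfl fun r hr => ?_
      rw [Finset.mem_filter] at hr
      unfold vv
      rw [hr.2]
    rw [h3, Finset.sum_const, nsmul_eq_mul]
    have h4 : (((FN N).filter fun r => fp r = (i.2 : ℝ) / i.1).card : ℝ) ≤ 1 := by exact_mod_cast h2
    calc _ ≤ 1 * |E N ((i.2 : ℝ) / i.1)| ^ p :=
          mul_le_mul_of_nonneg_right h4 (Real.rpow_nonneg (abs_nonneg _) p)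
      _ = _ := one_mul _
  have hoff : ∑ r ∈ off Q X N, |E N (fp r)| ^ p = ∑ r ∈ FN N, if r ∈ off Q X N then vv p N r else 0 := by
    rw [← Finset.sum_filter]
    refine Finset.sum_congr ?_ fun _ _ => rfl
    ext r
    rw [Finset.mem_filter]
    exact ⟨fun h => ⟨(mem_off.1 h).1, h⟩, fun h => h.2⟩
  refine le_trans ?_ (add_le_add_left (add_le_add_right hcen _) _)
  rw [hoff, TN_eq, ← Finset.sum_add_distrib, ← Finset.sum_add_distrib]
  unfold W
  refine Finset.sum_le_sum fun r hr => ?_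
  have h0 := vv_nonneg p N r
  have hr0 := fp_pos hr
  have hr1 := fp_le_one hr
  change vv p N r ≤ _
  by_cases hro : r ∈ off Q X N
  · rw [if_pos hro]
    have h1 : 0 ≤ ((((PR Q).filter fun i => rt X N i r).card : ℝ) +
      ((PL Q).filter fun i => lf X N i r).card) * vv p N r := by positivity
    have h2 : 0 ≤ (((PL Q).filter fun i => fp r = (i.2 : ℝ) / i.1).card : ℝ) * vv p N r := by positivity
    linarith
  · rw [if_neg hro, add_zero, ← add_mul]
    have h1 : ¬ ∀ q ∈ Finset.Icc 1 Q, ∀ a ∈ Finset.range (q + 1), a.Coprime q →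
        X / (q * N) < |fp r - (a : ℝ) / q| := fun h => hro (mem_off.2 ⟨hr, h⟩)
    push Not at h1
    obtain ⟨q, hq, a, ha, hc, h2⟩ := h1
    rw [Finset.mem_Icc] at hq
    rw [Finset.mem_range] at ha
    have hq0 : (0 : ℝ) < q := by exact_mod_cast hq.1
    have key : 1 ≤ ((PR Q).filter fun i => rt X N i r).card + ((PL Q).filter fun i => lf X N i r).card +
        ((PL Q).filter fun i => fp r = (i.2 : ℝ) / i.1).card := by
      rcases lt_trichotomy (fp r) ((a : ℝ) / q) with h | h | h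
      · have ha1 : 1 ≤ a := by
          rcases Nat.eq_zero_or_pos a with h3 | h3
          · rw [h3, Nat.cast_zero, zero_div] at h; linarith
          · exact h3
        have h3 : (⟨q, a⟩ : Σ _ : ℕ, ℕ) ∈ (PL Q).filter fun i => lf X N i r := by
          rw [Finset.mem_filter, mem_PL]
          refine ⟨⟨hq, ⟨ha1, by simp only; omega⟩, hc.symm⟩, ?_, h⟩
          rw [abs_of_nonpos (by linarith)] at h2
          simp only
          linarith
        have h4 := Finset.card_pos.2 ⟨_, h3⟩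
        omega
      · have ha1 : 1 ≤ a := by
          rcases Nat.eq_zero_or_pos a with h3 | h3
          · rw [h3, Nat.cast_zero, zero_div] at h; linarith
          · exact h3
        have h3 : (⟨q, a⟩ : Σ _ : ℕ, ℕ) ∈ (PL Q).filter fun i => fp r = (i.2 : ℝ) / i.1 := by
          rw [Finset.mem_filter, mem_PL]
          exact ⟨⟨hq, ⟨ha1, by simp only; omega⟩, hc.symm⟩, h⟩
        have h4 := Finset.card_pos.2 ⟨_, h3⟩
        omega
      · have ha1 : a < q := by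
          by_contra h3
          have h4 : (q : ℝ) ≤ a := by exact_mod_cast not_lt.1 h3
          have h5 : 1 ≤ (a : ℝ) / q := by rw [le_div_iff₀ hq0]; linarith
          linarith
        have h3 : (⟨q, a⟩ : Σ _ : ℕ, ℕ) ∈ (PR Q).filter fun i => rt X N i r := by
          rw [Finset.mem_filter, mem_PR]
          refine ⟨⟨hq, ha1, hc.symm⟩, h, ?_⟩
          rw [abs_of_nonneg (by linarith)] at h2
          simp only
          linarith
        have h4 := Finset.card_pos.2 ⟨_, h3⟩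
        omega
    have key' : (1 : ℝ) ≤ (((PR Q).filter fun i => rt X N i r).card : ℝ) +
        ((PL Q).filter fun i => lf X N i r).card + ((PL Q).filter fun i => fp r = (i.2 : ℝ) / i.1).card := by
      exact_mod_cast key
    calc vv p N r = 1 * vv p N r := (one_mul _).symm
      _ ≤ _ := mul_le_mul_of_nonneg_right key' h0

/-! ## The limits for fixed `Q` and `X` -/

open Classical in
theorem TN_tendsto (sa : J_SA) {p : ℝ} (hp : 1 ≤ p)
    (hprof : ∀ q a : ℕ, 1 ≤ q → a ≤ q → a.Coprime q → Prof q a) (Q : ℕ) {X : ℝ} (hX : 0 < X) :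
    Tendsto (fun N : ℕ => TN p Q X N / (N : ℝ) ^ (p + 1)) atTop
      (𝓝 (2 * (∑ q ∈ Finset.Icc 1 Q, (q.totient : ℝ) / (q : ℝ) ^ (p + 1)) * ∫ x in (0 : ℝ)..X, |F x| ^ p * w x)) := by
  set I := ∫ x in (0 : ℝ)..X, |F x| ^ p * w x with hI
  have h1 : ∀ i ∈ PR Q, Tendsto (fun N : ℕ => (∑ r ∈ FN N, if rt X N i r then vv p N r else 0) /
      (N : ℝ) ^ (p + 1)) atTop (𝓝 (1 / ((i.1 : ℕ) : ℝ) ^ (p + 1) * I)) := by
    intro i hi
    rw [mem_PR] at hi
    have h := (sa p hp i.1 i.2 hi.1.1 hi.2.1.le hi.2.2.symm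
      (hprof i.1 i.2 hi.1.1 hi.2.1.le hi.2.2.symm) X hX).1 hi.2.1
    refine h.congr fun N => ?_
    congr 1
    refine Finset.sum_congr rfl fun r _ => ?_
    unfold rt vv
    congr
  have h2 : ∀ i ∈ PL Q, Tendsto (fun N : ℕ => (∑ r ∈ FN N, if lf X N i r then vv p N r else 0) /
      (N : ℝ) ^ (p + 1)) atTop (𝓝 (1 / ((i.1 : ℕ) : ℝ) ^ (p + 1) * I)) := by
    intro i hi
    rw [mem_PL] at hi
    have h := (sa p hp i.1 i.2 hi.1.1 hi.2.1.2 hi.2.2.symm
      (hprof i.1 i.2 hi.1.1 hi.2.1.2 hi.2.2.symm) X hX).2 hi.2.1.1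
    refine h.congr fun N => ?_
    congr 1
    refine Finset.sum_congr rfl fun r _ => ?_
    unfold lf vv
    congr
  have h3 := (tendsto_finsetSum (PR Q) h1).add (tendsto_finsetSum (PL Q) h2)
  have e1 : ∑ i ∈ PR Q, 1 / ((i.1 : ℕ) : ℝ) ^ (p + 1) * I + ∑ i ∈ PL Q, 1 / ((i.1 : ℕ) : ℝ) ^ (p + 1) * I =
      2 * (∑ q ∈ Finset.Icc 1 Q, (q.totient : ℝ) / (q : ℝ) ^ (p + 1)) * I := by
    rw [sum_PR Q (fun q => 1 / (q : ℝ) ^ (p + 1) * I), sum_PL Q (fun q => 1 / (q : ℝ) ^ (p + 1) * I),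
      ← two_mul, mul_assoc, Finset.sum_mul]
    congr 1
    refine Finset.sum_congr rfl fun q _ => ?_
    ring
  rw [e1] at h3
  refine h3.congr fun N => ?_
  unfold TN
  rw [add_div, Finset.sum_div, Finset.sum_div]

theorem cen_tendsto {p : ℝ} (hp : 1 ≤ p)
    (hprof : ∀ q a : ℕ, 1 ≤ q → a ≤ q → a.Coprime q → Prof q a) (Q : ℕ) :
    Tendsto (fun N : ℕ => (∑ i ∈ PL Q, |E N ((i.2 : ℝ) / i.1)| ^ p) / (N : ℝ) ^ (p + 1)) atTop (𝓝 0) := by
  have h1 : ∀ i ∈ PL Q, Tendsto (fun N : ℕ => |E N ((i.2 : ℝ) / i.1)| ^ p / (N : ℝ) ^ (p + 1)) atTop (𝓝 0) := by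
    intro i hi
    rw [mem_PL] at hi
    have hi0 : (0 : ℝ) < i.1 := by exact_mod_cast hi.1.1
    have hP := hprof i.1 i.2 hi.1.1 hi.2.1.2 hi.2.2.symm 1 1 one_pos one_pos
    refine squeeze_zero' (Eventually.of_forall fun N => by positivity) ?_ (tendsto_const_div_atTop_nhds_zero_nat 1)
    filter_upwards [hP, eventually_ge_atTop 1] with N hN hN1
    have hN0 : (0 : ℝ) < N := by exact_mod_cast hN1
    have h2 := hN 0 (by simp) (by rw [zero_div, add_zero]; positivity)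
      (by
        rw [zero_div, add_zero, div_le_one hi0]
        exact_mod_cast hi.2.1.2)
    have hF : Fo 0 = 0 := by simp [Fo]
    rw [hF, zero_div, zero_div, add_zero, sub_zero, abs_div, abs_of_pos hN0, div_le_one hN0] at h2
    have h3 : |E N ((i.2 : ℝ) / i.1)| ^ p ≤ (N : ℝ) ^ p :=
      Real.rpow_le_rpow (abs_nonneg _) h2 (by linarith)
    rw [div_le_div_iff₀ (by positivity) hN0]
    calc |E N ((i.2 : ℝ) / i.1)| ^ p * N ≤ (N : ℝ) ^ p * N := mul_le_mul_of_nonneg_right h3 hN0.le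
      _ = 1 * (N : ℝ) ^ (p + 1) := by rw [Real.rpow_add hN0, Real.rpow_one, one_mul]
  have h2 := tendsto_finsetSum (PL Q) h1
  rw [Finset.sum_const_zero] at h2
  refine h2.congr fun N => ?_
  rw [Finset.sum_div]

theorem summable_phi {p : ℝ} (hp : 1 < p) : Summable fun q : ℕ => (q.totient : ℝ) / (q : ℝ) ^ (p + 1) := by
  refine Summable.of_nonneg_of_le (fun q => by positivity) (fun q => ?_) (Real.summable_one_div_nat_rpow.2 hp)
  rcases Nat.eq_zero_or_pos q with h | h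
  · rw [h]
    simp
    positivity
  · have hq0 : (0 : ℝ) < q := by exact_mod_cast h
    have h1 : (q.totient : ℝ) ≤ q := by exact_mod_cast q.totient_le
    rw [Real.rpow_add hq0, Real.rpow_one, div_le_div_iff₀ (by positivity) (by positivity)]
    have h2 : (0 : ℝ) < (q : ℝ) ^ p := by positivity
    nlinarith

/-! ## The theorem -/

/-- `J_SS` from the jobs. -/
theorem t_SS_of (su : J_SU) (sa : J_SA) (sm : J_SM) : J_SS := by
  intro p c0 θ hp hθ0 hθ hM
  have hp1 : 1 ≤ p := by linarith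
  have hp0 : 0 < p := by linarith
  have hθ1 : θ < 1 := by
    have : 0 < 1 / p := by positivity
    linarith
  have hprof := su c0 θ hθ1 hM
  -- the partial sums and integrals
  set I : ℝ → ℝ := fun X => ∫ x in (0 : ℝ)..X, |F x| ^ p * w x with hIdef
  set Sg : ℕ → ℝ := fun Q => ∑ q ∈ Finset.Icc 1 Q, (q.totient : ℝ) / (q : ℝ) ^ (p + 1) with hSg
  have hT : ∀ (Q : ℕ) (X : ℝ), 0 < X → Tendsto (fun N : ℕ => TN p Q X N / (N : ℝ) ^ (p + 1)) atTop
      (𝓝 (2 * Sg Q * I X)) := fun Q X hX => TN_tendsto sa hp1 hprof Q hX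
  have hlow : ∀ (Q : ℕ) (X : ℝ), 0 < X → ∀ᶠ N : ℕ in atTop,
      TN p Q X N / (N : ℝ) ^ (p + 1) ≤ W p N / (N : ℝ) ^ (p + 1) := by
    intro Q X hX
    filter_upwards [(tendsto_natCast_atTop_atTop (R := ℝ)).eventually_gt_atTop (2 * Q * X)] with N hN
    exact div_le_div_of_nonneg_right (TN_le hX hN) (by positivity)
  have hup : ∀ (Q : ℕ) (X : ℝ) (N : ℕ), W p N / (N : ℝ) ^ (p + 1) ≤ TN p Q X N / (N : ℝ) ^ (p + 1) +
      (∑ i ∈ PL Q, |E N ((i.2 : ℝ) / i.1)| ^ p) / (N : ℝ) ^ (p + 1) +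
      (∑ r ∈ off Q X N, |E N (fp r)| ^ p) / (N : ℝ) ^ (p + 1) := by
    intro Q X N
    rw [← add_div, ← add_div]
    exact div_le_div_of_nonneg_right le_TN (by positivity)
  -- the minor arcs
  have hsm : ∀ ε : ℝ, 0 < ε → ∃ Q : ℕ, ∃ X : ℝ, 1 ≤ Q ∧ 1 ≤ X ∧ ∀ (Q' : ℕ) (X' : ℝ), Q ≤ Q' → X ≤ X' →
      ∀ᶠ N : ℕ in atTop, (∑ r ∈ off Q' X' N, |E N (fp r)| ^ p) / (N : ℝ) ^ (p + 1) ≤ ε :=
    sm p c0 θ hp hθ0 hθ hM
  -- upper bound for large `N`
  have hbig : ∀ ε : ℝ, 0 < ε → ∃ Q : ℕ, ∃ X : ℝ, 1 ≤ Q ∧ 1 ≤ X ∧ ∀ (Q' : ℕ) (X' : ℝ), Q ≤ Q' → X ≤ X' →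
      ∀ᶠ N : ℕ in atTop, W p N / (N : ℝ) ^ (p + 1) ≤ 2 * Sg Q' * I X' + 3 * ε := by
    intro ε hε
    obtain ⟨Q, X, hQ, hX, h⟩ := hsm ε hε
    refine ⟨Q, X, hQ, hX, fun Q' X' hQ' hX' => ?_⟩
    have hX'0 : 0 < X' := by linarith
    filter_upwards [h Q' X' hQ' hX', (hT Q' X' hX'0).eventually_lt_const
      (show 2 * Sg Q' * I X' < 2 * Sg Q' * I X' + ε by linarith),
      (cen_tendsto hp1 hprof Q').eventually_lt_const hε] with N h1 h2 h3
    have := hup Q' X' N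
    linarith
  obtain ⟨Q0, X0, hQ0, hX0, h0⟩ := hbig 1 one_pos
  set C0 := 2 * Sg Q0 * I X0 + 3 * 1 with hC0
  have hWC := h0 Q0 X0 le_rfl le_rfl
  have hLC : ∀ (Q : ℕ) (X : ℝ), 0 < X → 2 * Sg Q * I X ≤ C0 := by
    intro Q X hX
    refine le_of_tendsto (hT Q X hX) ?_
    filter_upwards [hlow Q X hX, hWC] with N h1 h2
    exact h1.trans h2
  -- integrability
  have hSg1 : Sg 1 = 1 := by simp [hSg]
  have hint : IntegrableOn (fw p) (Ioi 0) := by
    refine integrableOn_Ioi_of_intervalIntegral_norm_bounded (C0 / 2) 0 (fun n : ℕ => fw_intOn hp0.le (n : ℝ))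
      (tendsto_natCast_atTop_atTop (R := ℝ)) ?_
    filter_upwards [eventually_ge_atTop 1] with n hn
    have hn0 : (0 : ℝ) < n := by exact_mod_cast hn
    have h1 := hLC 1 n hn0
    rw [hSg1] at h1
    have h2 : ∫ x in (0 : ℝ)..n, ‖fw p x‖ = I n := by
      refine intervalIntegral.integral_congr fun x _ => ?_
      rw [Real.norm_eq_abs, abs_of_nonneg (fw_nonneg p x)]
      rfl
    rw [h2]
    linarith
  refine ⟨hint, ?_⟩
  -- the limit
  set J := ∫ x in Ioi (0 : ℝ), |F x| ^ p * w x with hJ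
  have hIJ : Tendsto (fun n : ℕ => I n) atTop (𝓝 J) :=
    intervalIntegral_tendsto_integral_Ioi 0 hint (tendsto_natCast_atTop_atTop (R := ℝ))
  set T := ∑' q : ℕ, (q.totient : ℝ) / (q : ℝ) ^ (p + 1) with hTdef
  have hsum := summable_phi (show (1 : ℝ) < p by linarith)
  have hSgT : Tendsto Sg atTop (𝓝 T) := by
    have h1 := hsum.hasSum.tendsto_sum_nat
    have h2 := h1.comp (tendsto_add_atTop_nat 1)
    refine h2.congr fun Q => ?_
    simp only [Function.comp_apply, hSg]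
    rw [Finset.range_eq_Ico, ← Finset.sum_Ioo_add_eq_sum_Ico (by omega)]
    simp only [Nat.totient_zero, Nat.cast_zero, zero_div, add_zero]
    refine Finset.sum_congr ?_ fun _ _ => rfl
    ext q
    simp only [Finset.mem_Ioo, Finset.mem_Icc]
    omega
  have hlim : Tendsto (fun n : ℕ => 2 * Sg n * I n) atTop (𝓝 (2 * T * J)) := (hSgT.const_mul 2).mul hIJ
  rw [Metric.tendsto_atTop']
  intro ε hε
  obtain ⟨Q, X, hQ, hX, h⟩ := hbig (ε / 8) (by linarith)
  obtain ⟨n, ⟨hn1, hn2⟩, hn3⟩ := (((hlim.eventually (Metric.ball_mem_nhds _ (show 0 < ε / 8 by linarith))).and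
    (eventually_ge_atTop Q)).and ((tendsto_natCast_atTop_atTop (R := ℝ)).eventually_ge_atTop X)).exists
  rw [Real.dist_eq, abs_lt] at hn1
  have hn0 : (0 : ℝ) < n := by linarith
  have h1 := h n n hn2 hn3
  have h2 := (hT n n hn0).eventually_const_lt (show 2 * Sg n * I n - ε / 8 < 2 * Sg n * I n by linarith)
  have h3 := hlow n n hn0
  obtain ⟨N0, hN0⟩ := ((h1.and (h2.and h3)).and (eventually_ge_atTop 0)).exists_forall_of_atTop
  refine ⟨N0, fun N hN => ?_⟩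
  obtain ⟨⟨h4, h5, h6⟩, -⟩ := hN0 N hN.le
  rw [Real.dist_eq, abs_lt]
  constructor <;> linarith [hn1.1, hn1.2]

/-- **Job SS.** -/
theorem t_SS (su : J_SU) (sa : J_SA) (sl : J_SL) : J_SS := t_SS_of su sa (t_SM sl)

end Pool.Agent.Q210.FA
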