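import Pool.Agent.Q120.FA.Stm4
import Pool.Agent.Q277.FA.ID

/-! Project FA (helper120), job W0 (helper210): Franel's sum. -/

set_option autoImplicit false

namespace Pool.Agent.Q210.FA

open MeasureTheory Filter Topology Set Pool.Agent.Q120.FA
open Pool.Agent.H295R2 (farey mem_farey sum_farey_eq)

/-- the number of elements up to `t` -/
noncomputable def cT (T : Finset ℝ) (t : ℝ) : ℝ := ∑ s ∈ T, if s ≤ t then (1 : ℝ) else 0

lemma cT_card (T : Finset ℝ) (t : ℝ) : cT T t = ((T.filter fun s => s ≤ t).card : ℝ) := by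
  unfold cT
  rw [Finset.sum_boole]

/-- the squares of the indices -/
lemma sum_cT_sq (T : Finset ℝ) : ∑ r ∈ T, cT T r ^ 2 =
    (T.card : ℝ) * (T.card + 1) * (2 * T.card + 1) / 6 := by
  induction T using Finset.induction_on_max with
  | empty => simp
  | insert a T ha ih =>
    have haT : a ∉ T := fun h => lt_irrefl _ (ha a h)
    rw [Finset.sum_insert haT, Finset.card_insert_of_notMem haT]
    have h1 : ∀ r ∈ T, cT (insert a T) r ^ 2 = cT T r ^ 2 := by
      intro r hr
      unfold cT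
      rw [Finset.sum_insert haT, if_neg (not_le.2 (ha r hr)), zero_add]
    have h2 : cT (insert a T) a = T.card + 1 := by
      unfold cT
      rw [Finset.sum_insert haT, if_pos le_rfl, Finset.sum_congr rfl (fun s hs => if_pos (ha s hs).le)]
      simp
      ring
    rw [Finset.sum_congr rfl h1, ih, h2]
    push_cast
    ring

/-- `∑ c(r) r` -/
lemma sum_cT_mul (T : Finset ℝ) : 2 * ∑ r ∈ T, cT T r * r =
    (∑ r ∈ T, ∑ s ∈ T, max r s) + ∑ r ∈ T, r := by
  have h1 : ∑ r ∈ T, cT T r * r = ∑ r ∈ T, ∑ s ∈ T, (if s ≤ r then r else 0) := by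
    refine Finset.sum_congr rfl fun r _ => ?_
    unfold cT
    rw [Finset.sum_mul]
    refine Finset.sum_congr rfl fun s _ => ?_
    split_ifs <;> simp
  have h2 : ∑ r ∈ T, cT T r * r = ∑ r ∈ T, ∑ s ∈ T, (if r ≤ s then s else 0) := by
    rw [h1, Finset.sum_comm]
  have h3 : ∑ r ∈ T, r = ∑ r ∈ T, ∑ s ∈ T, (if r = s then r else 0) := by
    refine Finset.sum_congr rfl fun r hr => ?_
    rw [Finset.sum_ite_eq]
    simp [hr]
  rw [two_mul]
  nth_rw 1 [h1]
  rw [h2, h3, ← Finset.sum_add_distrib, ← Finset.sum_add_distrib]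
  refine Finset.sum_congr rfl fun r _ => ?_
  rw [← Finset.sum_add_distrib, ← Finset.sum_add_distrib]
  refine Finset.sum_congr rfl fun s _ => ?_
  rcases lt_trichotomy r s with h | h | h
  · rw [if_neg (not_le.2 h), if_pos h.le, if_neg h.ne, max_eq_right h.le]
    ring
  · subst h
    simp
  · rw [if_pos h.le, if_neg (not_le.2 h), if_neg h.ne', max_eq_left h.le]

lemma ii_ind (r : ℝ) (x y : ℝ) :
    IntervalIntegrable (fun t : ℝ => if r ≤ t then (1 : ℝ) else 0) volume x y := by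
  refine (intervalIntegrable_const (c := (1 : ℝ))).mono_fun ?_ ?_
  · exact (Measurable.ite measurableSet_Ici measurable_const measurable_const).aestronglyMeasurable
  · refine Filter.Eventually.of_forall fun t => ?_
    change ‖(if r ≤ t then (1 : ℝ) else 0)‖ ≤ ‖(1 : ℝ)‖
    split_ifs <;> simp

lemma int_ind (r : ℝ) (h0 : 0 ≤ r) (h1 : r ≤ 1) (g : ℝ → ℝ) (hg : Continuous g) :
    ∫ t in (0 : ℝ)..1, (if r ≤ t then g t else 0) = ∫ t in r..1, g t := by
  have e : (fun t : ℝ => if r ≤ t then g t else 0) = Set.indicator (Ici r) g := by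
    funext t
    by_cases h : r ≤ t
    · rw [if_pos h, Set.indicator_of_mem (mem_Ici.2 h)]
    · rw [if_neg h, Set.indicator_of_notMem (by simpa using h)]
  rw [e, intervalIntegral.integral_of_le zero_le_one, intervalIntegral.integral_of_le h1,
    setIntegral_indicator measurableSet_Ici]
  rw [← integral_Icc_eq_integral_Ioc (x := r) (y := 1)]
  have : (Ioc (0 : ℝ) 1 ∩ Ici r : Set ℝ) =ᵐ[volume] (Icc r 1 : Set ℝ) := by
    rcases h0.lt_or_eq with h | h
    · have : (Ioc (0 : ℝ) 1 ∩ Ici r) = Icc r 1 := by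
        ext t
        simp only [mem_inter_iff, mem_Ioc, mem_Ici, mem_Icc]
        constructor
        · rintro ⟨⟨_, b⟩, c⟩; exact ⟨c, b⟩
        · rintro ⟨c, b⟩; exact ⟨⟨by linarith, b⟩, c⟩
      exact Filter.EventuallyEq.of_eq this
    · subst h
      have : (Ioc (0 : ℝ) 1 ∩ Ici 0) = Ioc 0 1 := by
        ext t
        simp only [mem_inter_iff, mem_Ioc, mem_Ici]
        constructor
        · rintro ⟨⟨a, b⟩, c⟩; exact ⟨a, b⟩
        · rintro ⟨a, b⟩; exact ⟨⟨a, b⟩, a.le⟩
      rw [this]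
      exact Ioc_ae_eq_Icc
  exact setIntegral_congr_set this

/-- the integral of the square -/
lemma int_sq (T : Finset ℝ) (hT : ∀ r ∈ T, 0 ≤ r ∧ r ≤ 1) (n : ℝ) :
    ∫ t in (0 : ℝ)..1, (cT T t - n * t) ^ 2 =
      (∑ r ∈ T, ∑ s ∈ T, (1 - max r s)) - n * (∑ r ∈ T, (1 - r ^ 2)) + n ^ 2 / 3 := by
  have e : ∀ t : ℝ, (cT T t - n * t) ^ 2 =
      (∑ r ∈ T, ∑ s ∈ T, (if max r s ≤ t then (1 : ℝ) else 0)) -
        (∑ r ∈ T, (if r ≤ t then 2 * n * t else 0)) + n ^ 2 * t ^ 2 := by
    intro t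
    have e1 : cT T t ^ 2 = ∑ r ∈ T, ∑ s ∈ T, (if max r s ≤ t then (1 : ℝ) else 0) := by
      unfold cT
      rw [sq, Finset.sum_mul_sum]
      refine Finset.sum_congr rfl fun r _ => Finset.sum_congr rfl fun s _ => ?_
      by_cases h1 : r ≤ t
      · by_cases h2 : s ≤ t
        · rw [if_pos h1, if_pos h2, if_pos (max_le h1 h2)]; ring
        · rw [if_pos h1, if_neg h2, if_neg (fun h => h2 ((le_max_right r s).trans h))]; ring
      · rw [if_neg h1, if_neg (fun h => h1 ((le_max_left r s).trans h))]; ring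
    have e2 : cT T t * (2 * n * t) = ∑ r ∈ T, (if r ≤ t then 2 * n * t else 0) := by
      unfold cT
      rw [Finset.sum_mul]
      refine Finset.sum_congr rfl fun r _ => ?_
      split_ifs <;> ring
    rw [← e1, ← e2]
    ring
  simp only [e]
  have i1 : ∀ r s : ℝ, IntervalIntegrable (fun t : ℝ => if max r s ≤ t then (1 : ℝ) else 0)
      volume 0 1 := fun r s => ii_ind _ _ _
  have i1' : ∀ r : ℝ, IntervalIntegrable (fun t : ℝ => ∑ s ∈ T, if max r s ≤ t then (1 : ℝ) else 0)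
      volume 0 1 := by
    intro r
    have h := IntervalIntegrable.sum (μ := volume) (a := (0 : ℝ)) (b := 1) T
      (f := fun s t => if max r s ≤ t then (1 : ℝ) else 0) fun s _ => i1 r s
    simpa [Finset.sum_fn] using h
  have i1'' : IntervalIntegrable (fun t : ℝ => ∑ r ∈ T, ∑ s ∈ T,
      if max r s ≤ t then (1 : ℝ) else 0) volume 0 1 := by
    have h := IntervalIntegrable.sum (μ := volume) (a := (0 : ℝ)) (b := 1) T
      (f := fun r t => ∑ s ∈ T, if max r s ≤ t then (1 : ℝ) else 0) fun r _ => i1' r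
    simpa [Finset.sum_fn] using h
  have i2 : ∀ r : ℝ, IntervalIntegrable (fun t : ℝ => if r ≤ t then 2 * n * t else 0)
      volume 0 1 := by
    intro r
    have h := (ii_ind r 0 1).mul_continuousOn (g := fun t : ℝ => 2 * n * t) (by fun_prop)
    refine h.congr ?_
    intro t _
    simp only
    split_ifs <;> ring
  have i2' : IntervalIntegrable (fun t : ℝ => ∑ r ∈ T, if r ≤ t then 2 * n * t else 0)
      volume 0 1 := by
    have h := IntervalIntegrable.sum (μ := volume) (a := (0 : ℝ)) (b := 1) T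
      (f := fun r t => if r ≤ t then 2 * n * t else 0) fun r _ => i2 r
    simpa [Finset.sum_fn] using h
  have i3 : IntervalIntegrable (fun t : ℝ => n ^ 2 * t ^ 2) volume 0 1 :=
    (by fun_prop : Continuous fun t : ℝ => n ^ 2 * t ^ 2).intervalIntegrable _ _
  rw [intervalIntegral.integral_add (i1''.sub i2') i3, intervalIntegral.integral_sub i1'' i2',
    intervalIntegral.integral_finsetSum fun r _ => i1' r,
    intervalIntegral.integral_finsetSum fun r _ => i2 r]
  have j1 : ∀ r ∈ T, ∫ t in (0 : ℝ)..1, (∑ s ∈ T, if max r s ≤ t then (1 : ℝ) else 0) =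
      ∑ s ∈ T, (1 - max r s) := by
    intro r hr
    rw [intervalIntegral.integral_finsetSum fun s _ => i1 r s]
    refine Finset.sum_congr rfl fun s hs => ?_
    rw [int_ind (max r s) (le_max_of_le_left (hT r hr).1) (max_le (hT r hr).2 (hT s hs).2)
      (fun _ => 1) continuous_const]
    simp
  have j2 : ∀ r ∈ T, ∫ t in (0 : ℝ)..1, (if r ≤ t then 2 * n * t else 0) = n * (1 - r ^ 2) := by
    intro r hr
    rw [int_ind r (hT r hr).1 (hT r hr).2 (fun t => 2 * n * t) (by fun_prop),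
      intervalIntegral.integral_const_mul, integral_id]
    ring
  rw [Finset.sum_congr rfl j1, Finset.sum_congr rfl j2, ← Finset.mul_sum,
    intervalIntegral.integral_const_mul, integral_pow]
  norm_num
  ring

/-- the abstract identity -/
lemma abstract_id (T : Finset ℝ) (hT : ∀ r ∈ T, 0 ≤ r ∧ r ≤ 1)
    (hs : ∑ r ∈ T, r = ((T.card : ℝ) + 1) / 2) :
    ∑ r ∈ T, (cT T r - T.card * r) ^ 2 =
      T.card * ((∫ t in (0 : ℝ)..1, (cT T t - T.card * t) ^ 2) - 1 / 3) := by
  rw [int_sq T hT]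
  set n : ℝ := (T.card : ℝ) with hn
  have h1 := sum_cT_sq T
  have h2 := sum_cT_mul T
  rw [← hn] at h1
  have h3 : ∑ r ∈ T, (cT T r - n * r) ^ 2 =
      (∑ r ∈ T, cT T r ^ 2) - 2 * n * (∑ r ∈ T, cT T r * r) + n ^ 2 * ∑ r ∈ T, r ^ 2 := by
    rw [Finset.mul_sum, Finset.mul_sum, ← Finset.sum_sub_distrib, ← Finset.sum_add_distrib]
    refine Finset.sum_congr rfl fun r _ => ?_
    ring
  have h4 : ∑ r ∈ T, ∑ s ∈ T, (1 - max r s) = n * n - ∑ r ∈ T, ∑ s ∈ T, max r s := by
    simp only [Finset.sum_sub_distrib, Finset.sum_const, nsmul_eq_mul, mul_one, ← hn]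
  have h5 : ∑ r ∈ T, (1 - r ^ 2) = n - ∑ r ∈ T, r ^ 2 := by
    rw [Finset.sum_sub_distrib]
    simp [← hn]
  rw [h3, h4, h5, h1]
  have h6 : 2 * n * ∑ r ∈ T, cT T r * r = n * ((∑ r ∈ T, ∑ s ∈ T, max r s) + (n + 1) / 2) := by
    rw [← hs, ← h2]; ring
  rw [h6]
  ring

/-- the Farey fractions of order `N` -/
noncomputable def TF (N : ℕ) : Finset ℝ := (farey N).image fun x : ℚ => (x : ℝ)

lemma sum_TF (N : ℕ) (g : ℝ → ℝ) : ∑ r ∈ TF N, g r = ∑ x ∈ farey N, g ((x : ℚ) : ℝ) := by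
  unfold TF
  rw [Finset.sum_image]
  intro x _ y _ h
  exact Rat.cast_injective h

lemma card_TF (N : ℕ) : ((TF N).card : ℝ) = ∑ n ∈ Finset.Icc 1 N, (n.totient : ℝ) := by
  rw [← Pool.Agent.Q277.FA.card_farey]
  unfold TF
  rw [Finset.card_image_of_injective]
  exact Rat.cast_injective

lemma cT_TF (N : ℕ) (t : ℝ) : cT (TF N) t = cnt N t := by
  rw [Pool.Agent.Q277.FA.filt_eq]
  unfold cT Pool.Agent.H295R2.cnt
  rw [sum_TF N (fun s => if s ≤ t then (1 : ℝ) else 0)]

lemma E_TF (N : ℕ) (t : ℝ) : E N t = cT (TF N) t - (TF N).card * t := by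
  rw [cT_TF, card_TF]
  rfl

/-- the mean of the coprime residues -/
lemma sum_cop (k : ℕ) (hk : 2 ≤ k) :
    2 * ∑ h ∈ (Finset.Icc 1 k).filter (fun h => Nat.Coprime h k), ((h : ℝ) / k) =
      ((Finset.Icc 1 k).filter (fun h => Nat.Coprime h k)).card := by
  have hk0 : (k : ℝ) ≠ 0 := by exact_mod_cast (by omega : k ≠ 0)
  have hlt : ∀ h ∈ (Finset.Icc 1 k).filter (fun h => Nat.Coprime h k), h < k := by
    intro h hh
    rw [Finset.mem_filter, Finset.mem_Icc] at hh
    rcases hh.1.2.lt_or_eq with h' | h'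
    · exact h'
    · exfalso
      have := hh.2
      rw [h', Nat.coprime_self] at this
      omega
  have h1 : ∑ h ∈ (Finset.Icc 1 k).filter (fun h => Nat.Coprime h k), ((h : ℝ) / k) =
      ∑ h ∈ (Finset.Icc 1 k).filter (fun h => Nat.Coprime h k), (1 - (h : ℝ) / k) := by
    have hmem : ∀ h ∈ (Finset.Icc 1 k).filter (fun h => Nat.Coprime h k),
        k - h ∈ (Finset.Icc 1 k).filter (fun h => Nat.Coprime h k) := by
      intro h hh
      have h2 := hlt h hh
      rw [Finset.mem_filter, Finset.mem_Icc] at hh ⊢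
      refine ⟨⟨by omega, by omega⟩, ?_⟩
      exact (Nat.coprime_self_sub_left hh.1.2).2 hh.2
    refine Finset.sum_nbij' (fun h => k - h) (fun h => k - h) hmem hmem ?_ ?_ ?_
    · intro h hh
      have := hlt h hh
      omega
    · intro h hh
      have := hlt h hh
      omega
    · intro h hh
      have := hlt h hh
      rw [Nat.cast_sub this.le]
      field_simp
      ring
  rw [two_mul]
  nth_rw 1 [h1]
  rw [← Finset.sum_add_distrib]
  simp

lemma sum_TF_id (N : ℕ) (hN : 1 ≤ N) : ∑ r ∈ TF N, r = (((TF N).card : ℝ) + 1) / 2 := by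
  have h1 : ∑ r ∈ TF N, r = ∑ k ∈ Finset.Icc 1 N,
      ∑ h ∈ (Finset.Icc 1 k).filter (fun h => Nat.Coprime h k), ((h : ℝ) / k) := by
    rw [sum_TF N (fun r => r), sum_farey_eq]
    refine Finset.sum_congr rfl fun k _ => Finset.sum_congr rfl fun h _ => ?_
    push_cast
    rfl
  have h2 : ((TF N).card : ℝ) = ∑ k ∈ Finset.Icc 1 N,
      (((Finset.Icc 1 k).filter (fun h => Nat.Coprime h k)).card : ℝ) := by
    have e1 : ((TF N).card : ℝ) = ∑ r ∈ TF N, (1 : ℝ) := by simp
    rw [e1, sum_TF N (fun _ => 1), sum_farey_eq]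
    refine Finset.sum_congr rfl fun k _ => ?_
    simp
  rw [h1, h2]
  obtain ⟨M, rfl⟩ : ∃ M, N = M + 1 := ⟨N - 1, by omega⟩
  have h3 : Finset.Icc 1 (M + 1) = insert 1 (Finset.Icc 2 (M + 1)) := by
    ext k
    simp only [Finset.mem_Icc, Finset.mem_insert]
    omega
  have hn : (1 : ℕ) ∉ Finset.Icc 2 (M + 1) := by simp
  rw [h3, Finset.sum_insert hn, Finset.sum_insert hn]
  have h4 : ∀ k ∈ Finset.Icc 2 (M + 1),
      ∑ h ∈ (Finset.Icc 1 k).filter (fun h => Nat.Coprime h k), ((h : ℝ) / k) =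
      1 / 2 * (((Finset.Icc 1 k).filter (fun h => Nat.Coprime h k)).card : ℝ) := by
    intro k hk
    rw [← sum_cop k (Finset.mem_Icc.1 hk).1]
    ring
  rw [Finset.sum_congr rfl h4, ← Finset.mul_sum]
  have h5 : (Finset.Icc 1 1).filter (fun h => Nat.Coprime h 1) = {1} := by
    ext h
    simp
  rw [h5]
  simp
  ring

theorem t_W0 : J_W0 := by
  intro N hN
  have hT : ∀ r ∈ TF N, (0 : ℝ) ≤ r ∧ r ≤ 1 := by
    intro r hr
    unfold TF at hr
    rw [Finset.mem_image] at hr
    obtain ⟨x, hx, rfl⟩ := hr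
    rw [mem_farey] at hx
    exact ⟨by exact_mod_cast hx.1.le, by exact_mod_cast hx.2.1⟩
  have h1 := abstract_id (TF N) hT (sum_TF_id N hN)
  have h2 : FI N = ∫ t in (0 : ℝ)..1, (cT (TF N) t - (TF N).card * t) ^ 2 := by
    unfold FI
    simp only [E_TF]
  rw [h2, ← card_TF, ← h1]
  -- the sum over the pairs
  rw [sum_TF N (fun r => (cT (TF N) r - (TF N).card * r) ^ 2), sum_farey_eq]
  unfold W FN
  classical
  rw [Finset.sum_filter, Finset.sum_product_right]
  refine Finset.sum_congr rfl fun k hk => ?_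
  rw [Finset.mem_Icc] at hk
  rw [Finset.sum_filter, ← Finset.sum_subset (Finset.Icc_subset_Icc_right hk.2)]
  · refine Finset.sum_congr rfl fun h hh => ?_
    rw [Finset.mem_Icc] at hh
    by_cases hc : Nat.Coprime h k
    · rw [if_pos hc, if_pos ⟨hh.2, hc⟩]
      rw [show (2 : ℝ) = ((2 : ℕ) : ℝ) by norm_num, Real.rpow_natCast, sq_abs, E_TF]
      have : fp (h, k) = (((h : ℚ) / (k : ℚ) : ℚ) : ℝ) := by
        unfold fp
        push_cast
        rfl
      rw [this]
    · rw [if_neg hc, if_neg (fun h' => hc h'.2)]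
  · intro h hh hn
    rw [Finset.mem_Icc] at hh hn
    rw [if_neg]
    rintro ⟨h', -⟩
    exact hn ⟨hh.1, h'⟩

end Pool.Agent.Q210.FA
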