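import Pool.Agent.Q120.FA.Stm4
import Pool.Agent.Q277.FA.ID
import Pool.Agent.Q277.FA.L2

/-! Project FA (helper120), job W1 (helper210): Franel's integral. -/

set_option autoImplicit false

namespace Pool.Agent.Q210.FA

open MeasureTheory Filter Topology Set Pool.Agent.Q120.FA
open H332.FL (sw JJ quad_expand JJ_eq sw_add_nat sw_of_mem measurable_sw abs_sw_le ii_prod)

lemma sum_j2 (g : ℕ) (hg : 0 < g) : ∑ e ∈ g.divisors, (e : ℝ) ^ 2 * j2 e = (g : ℝ) ^ 2 := by
  have key := (ArithmeticFunction.sum_eq_iff_sum_mul_moebius_eq (R := ℝ)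
    (f := fun e => (e : ℝ) ^ 2 * j2 e) (g := fun n => (n : ℝ) ^ 2)).2
  refine key ?_ g hg
  intro n hn
  rw [Nat.sum_divisorsAntidiagonal (f := fun a b =>
    (((ArithmeticFunction.moebius a : ℤ)) : ℝ) * (b : ℝ) ^ 2)]
  unfold j2
  rw [Finset.mul_sum]
  refine Finset.sum_congr rfl fun k hk => ?_
  have hkn := Nat.dvd_of_mem_divisors hk
  have hk0 : (k : ℝ) ≠ 0 := by
    have : k ≠ 0 := by
      rintro rfl
      rw [zero_dvd_iff] at hkn
      omega
    exact_mod_cast this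
  rw [Nat.cast_div hkn hk0]
  field_simp

lemma ii_sw (d : ℕ) (x y : ℝ) : IntervalIntegrable (fun t => sw (d * t)) volume x y := by
  refine (intervalIntegrable_const (c := (1 / 2 : ℝ))).mono_fun ?_ ?_
  · exact (measurable_sw.comp (by fun_prop : Measurable fun t : ℝ => (d : ℝ) * t)).aestronglyMeasurable
  · refine Filter.Eventually.of_forall fun t => ?_
    change ‖sw ((d : ℝ) * t)‖ ≤ ‖(1 / 2 : ℝ)‖
    rw [Real.norm_eq_abs, Real.norm_eq_abs, abs_of_nonneg (by norm_num : (0 : ℝ) ≤ 1 / 2)]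
    exact abs_sw_le _

lemma int_sw_one : ∫ t in (0 : ℝ)..1, sw t = 0 := by
  have h1 : ∫ t in (0 : ℝ)..1, sw t = ∫ t in (0 : ℝ)..1, (t - 1 / 2) := by
    rw [intervalIntegral.integral_of_le zero_le_one, intervalIntegral.integral_of_le zero_le_one,
      integral_Ioc_eq_integral_Ioo, integral_Ioc_eq_integral_Ioo]
    refine setIntegral_congr_fun measurableSet_Ioo fun t ht => ?_
    exact sw_of_mem ht.1.le ht.2
  rw [h1, intervalIntegral.integral_sub (by simp) (by simp)]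
  simp

lemma int_sw (d : ℕ) (hd : 0 < d) : ∫ t in (0 : ℝ)..1, sw (d * t) = 0 := by
  have hd0 : (d : ℝ) ≠ 0 := by exact_mod_cast hd.ne'
  have hper : Function.Periodic sw 1 := by
    intro t
    have := sw_add_nat t 1
    simpa using this
  rw [intervalIntegral.integral_comp_mul_left sw hd0]
  have h3 : ∀ k < d, IntervalIntegrable sw volume ((k : ℕ) : ℝ) ((k + 1 : ℕ) : ℝ) := by
    intro k _
    have := ii_sw 1 (k : ℝ) ((k + 1 : ℕ) : ℝ)
    simpa using this
  have h4 := intervalIntegral.sum_integral_adjacent_intervals h3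
  simp only [Nat.cast_zero] at h4
  have h5 : ∀ k ∈ Finset.range d, ∫ t in ((k : ℕ) : ℝ)..((k + 1 : ℕ) : ℝ), sw t = 0 := by
    intro k _
    have h6 := hper.intervalIntegral_add_eq (k : ℝ) 0
    rw [zero_add, int_sw_one] at h6
    push_cast
    exact h6
  rw [mul_zero, mul_one, ← h4, Finset.sum_congr rfl h5]
  simp

lemma hh_eq (N e : ℕ) :
    hh ((N : ℝ) / e) = ∑ m ∈ Finset.Icc 1 (N / e), Mt (N / (e * m)) / m := by
  unfold hh
  rw [Nat.floor_div_eq_div]
  refine Finset.sum_congr rfl fun m _ => ?_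
  congr 1
  unfold Mr Mt
  have : (N : ℝ) / e / m = (N : ℝ) / ((e * m : ℕ) : ℝ) := by
    rw [div_div]; push_cast; rfl
  rw [this, Nat.floor_div_eq_div]

lemma sum_mult' (N e : ℕ) (he : 0 < e) :
    ∑ a ∈ Finset.Icc 1 N, (if e ∣ a then Mt (N / a) / (a : ℝ) else 0) =
      1 / (e : ℝ) * hh ((N : ℝ) / e) := by
  rw [hh_eq, ← Finset.sum_filter]
  have h1 : ∑ a ∈ (Finset.Icc 1 N).filter (fun a => e ∣ a), Mt (N / a) / (a : ℝ) =
      ∑ k ∈ Finset.Icc 1 (N / e), Mt (N / (e * k)) / ((e * k : ℕ) : ℝ) := by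
    symm
    refine Finset.sum_nbij' (fun k => e * k) (fun a => a / e) ?_ ?_ ?_ ?_ ?_
    · intro k hk
      rw [Finset.mem_Icc, Nat.le_div_iff_mul_le he] at hk
      rw [Finset.mem_filter, Finset.mem_Icc]
      refine ⟨⟨Nat.mul_pos he hk.1, ?_⟩, dvd_mul_right e k⟩
      rw [mul_comm]; exact hk.2
    · intro a ha
      rw [Finset.mem_filter, Finset.mem_Icc] at ha
      obtain ⟨⟨h1, h2⟩, ⟨k, rfl⟩⟩ := ha
      rw [Nat.mul_div_cancel_left k he, Finset.mem_Icc, Nat.le_div_iff_mul_le he, mul_comm]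
      refine ⟨Nat.pos_of_ne_zero (by rintro rfl; simp at h1), h2⟩
    · intro k _
      exact Nat.mul_div_cancel_left k he
    · intro a ha
      rw [Finset.mem_filter] at ha
      exact Nat.mul_div_cancel' ha.2
    · intro k _
      rfl
  rw [h1, Finset.mul_sum]
  refine Finset.sum_congr rfl fun k _ => ?_
  push_cast
  rw [one_div, div_mul_eq_div_div_swap, ← div_eq_inv_mul, div_right_comm]

theorem t_W1 : J_W1 := by
  intro N hN
  set c : ℕ → ℝ := fun d => Mt (N / d) with hc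
  have hE : ∀ t ∈ uIcc (0 : ℝ) 1, E N t ^ 2 =
      (∑ d ∈ Finset.Icc 1 N, c d * sw (d * t)) ^ 2 + (∑ d ∈ Finset.Icc 1 N, c d * sw (d * t)) +
        1 / 4 := by
    intro t ht
    rw [uIcc_of_le zero_le_one] at ht
    rw [Pool.Agent.Q277.FA.E_eq N hN ht.1 ht.2]
    have : (∑ d ∈ Finset.Icc 1 N, Mt (N / d) * ps ((d : ℝ) * t)) =
        ∑ d ∈ Finset.Icc 1 N, c d * sw (d * t) := rfl
    rw [this]
    ring
  have hi1 : IntervalIntegrable (fun t => ∑ d ∈ Finset.Icc 1 N, c d * sw (d * t)) volume 0 1 := by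
    have h := IntervalIntegrable.sum (μ := volume) (a := (0 : ℝ)) (b := 1) (Finset.Icc 1 N)
      (f := fun d t => c d * sw (d * t)) fun d _ => (ii_sw d 0 1).const_mul (c d)
    simpa [Finset.sum_fn] using h
  have hi2 : IntervalIntegrable (fun t => (∑ d ∈ Finset.Icc 1 N, c d * sw (d * t)) ^ 2)
      volume 0 1 := by
    have e : (fun t : ℝ => (∑ d ∈ Finset.Icc 1 N, c d * sw (d * t)) ^ 2) =
        fun t : ℝ => ∑ a ∈ Finset.Icc 1 N, ∑ b ∈ Finset.Icc 1 N,
          c a * c b * (sw (a * t) * sw (b * t)) := by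
      funext t
      rw [sq, Finset.sum_mul_sum]
      refine Finset.sum_congr rfl fun a _ => Finset.sum_congr rfl fun b _ => ?_
      ring
    rw [e]
    have h := IntervalIntegrable.sum (μ := volume) (a := (0 : ℝ)) (b := 1) (Finset.Icc 1 N)
      (f := fun a t => ∑ b ∈ Finset.Icc 1 N, c a * c b * (sw (a * t) * sw (b * t)))
      fun a _ => by
        have h' := IntervalIntegrable.sum (μ := volume) (a := (0 : ℝ)) (b := 1) (Finset.Icc 1 N)
          (f := fun b t => c a * c b * (sw (a * t) * sw (b * t)))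
          fun b _ => (ii_prod (f := fun t => (a : ℝ) * t) (g := fun t => (b : ℝ) * t)
            (by fun_prop) (by fun_prop) 0 1).const_mul (c a * c b)
        simpa [Finset.sum_fn] using h'
    simpa [Finset.sum_fn] using h
  have hFI : FI N = (∑ a ∈ Finset.Icc 1 N, ∑ b ∈ Finset.Icc 1 N, c a * c b * JJ a b) + 1 / 4 := by
    unfold FI
    rw [intervalIntegral.integral_congr hE, intervalIntegral.integral_add (hi2.add hi1) (by simp),
      intervalIntegral.integral_add hi2 hi1, quad_expand]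
    have : ∫ t in (0 : ℝ)..1, (∑ d ∈ Finset.Icc 1 N, c d * sw (d * t)) = 0 := by
      rw [intervalIntegral.integral_finsetSum fun d _ => (ii_sw d 0 1).const_mul (c d)]
      refine Finset.sum_eq_zero fun d hd => ?_
      rw [intervalIntegral.integral_const_mul, int_sw d (Finset.mem_Icc.1 hd).1, mul_zero]
    rw [this]
    simp
  rw [hFI]
  congr 1
  have h1 : ∀ a ∈ Finset.Icc 1 N, ∀ b ∈ Finset.Icc 1 N, c a * c b * JJ a b =
      ∑ e ∈ Finset.Icc 1 N, 1 / 12 * ((e : ℝ) ^ 2 * j2 e) *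
        ((if e ∣ a then c a / (a : ℝ) else 0) * (if e ∣ b then c b / (b : ℝ) else 0)) := by
    intro a ha b hb
    rw [Finset.mem_Icc] at ha hb
    have ha0 : (a : ℝ) ≠ 0 := by exact_mod_cast (by omega : a ≠ 0)
    have hb0 : (b : ℝ) ≠ 0 := by exact_mod_cast (by omega : b ≠ 0)
    have hg : 0 < Nat.gcd a b := Nat.gcd_pos_of_pos_left b ha.1
    rw [JJ_eq a b ha.1 hb.1, ← sum_j2 _ hg]
    have hdiv : (Nat.gcd a b).divisors = (Finset.Icc 1 N).filter (fun e => e ∣ a ∧ e ∣ b) := by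
      ext e
      simp only [Nat.mem_divisors, Finset.mem_filter, Finset.mem_Icc, Nat.dvd_gcd_iff]
      constructor
      · rintro ⟨⟨h1, h2⟩, _⟩
        exact ⟨⟨Nat.pos_of_dvd_of_pos h1 ha.1, (Nat.le_of_dvd ha.1 h1).trans ha.2⟩, h1, h2⟩
      · rintro ⟨_, h1, h2⟩
        exact ⟨⟨h1, h2⟩, hg.ne'⟩
    rw [hdiv, Finset.sum_filter, Finset.sum_div, Finset.mul_sum]
    refine Finset.sum_congr rfl fun e _ => ?_
    by_cases h1 : e ∣ a
    · by_cases h2 : e ∣ b
      · simp only [h1, h2, and_self, if_true]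
        field_simp
      · simp [h1, h2]
    · simp [h1]
  rw [Finset.sum_congr rfl fun a ha => Finset.sum_congr rfl fun b hb => h1 a ha b hb]
  have h2 : ∑ a ∈ Finset.Icc 1 N, ∑ b ∈ Finset.Icc 1 N, ∑ e ∈ Finset.Icc 1 N,
      1 / 12 * ((e : ℝ) ^ 2 * j2 e) *
        ((if e ∣ a then c a / (a : ℝ) else 0) * (if e ∣ b then c b / (b : ℝ) else 0)) =
      ∑ e ∈ Finset.Icc 1 N, 1 / 12 * ((e : ℝ) ^ 2 * j2 e) *
        (∑ a ∈ Finset.Icc 1 N, (if e ∣ a then c a / (a : ℝ) else 0)) ^ 2 := by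
    have e1 : ∀ a ∈ Finset.Icc 1 N, ∑ b ∈ Finset.Icc 1 N, ∑ e ∈ Finset.Icc 1 N,
      1 / 12 * ((e : ℝ) ^ 2 * j2 e) *
        ((if e ∣ a then c a / (a : ℝ) else 0) * (if e ∣ b then c b / (b : ℝ) else 0)) =
        ∑ e ∈ Finset.Icc 1 N, ∑ b ∈ Finset.Icc 1 N, 1 / 12 * ((e : ℝ) ^ 2 * j2 e) *
        ((if e ∣ a then c a / (a : ℝ) else 0) * (if e ∣ b then c b / (b : ℝ) else 0)) :=
      fun a _ => Finset.sum_comm
    rw [Finset.sum_congr rfl e1, Finset.sum_comm]
    refine Finset.sum_congr rfl fun e _ => ?_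
    have e2 : (∑ a ∈ Finset.Icc 1 N, (if e ∣ a then c a / (a : ℝ) else 0)) ^ 2 =
        ∑ a ∈ Finset.Icc 1 N, ∑ b ∈ Finset.Icc 1 N,
          ((if e ∣ a then c a / (a : ℝ) else 0) * (if e ∣ b then c b / (b : ℝ) else 0)) := by
      rw [sq, Finset.sum_mul_sum]
    rw [e2, Finset.mul_sum]
    refine Finset.sum_congr rfl fun a _ => ?_
    rw [Finset.mul_sum]
  rw [h2, Finset.mul_sum]
  refine Finset.sum_congr rfl fun e he => ?_
  rw [Finset.mem_Icc] at he
  have he0 : (e : ℝ) ≠ 0 := by exact_mod_cast (by omega : e ≠ 0)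
  rw [sum_mult' N e he.1]
  field_simp

end Pool.Agent.Q210.FA
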